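import Pool.Agent.Helper40.KZ.Stmts
import Pool.Agent.Helper92.JZ.QHS

/-! Module QHS5: the masses of the lifts of one function tend to zero. -/

set_option autoImplicit false

open Finset Filter MeasureTheory Topology
open scoped ComplexConjugate InnerProductSpace

namespace Pool.Agent.Helper40.KZ

open Pool.Agent.Helper16.AZ (T E Op mm fc Ind)
open Pool.Agent.Helper40.JZ (U cs tor Lift pj ms chi vz LM StrP)
open UnitAddTorus (mFourier)

namespace QHSP5

open Pool.Agent.Helper40.JZ.OPW Pool.Agent.Helper40.JZ.QHSP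

variable {r : ℕ}

/-- an eigenvector gives a transfer function to a constant -/
theorem eigenK (hE : Pool.Agent.Helper40.JZ.ST_ERG) (θ : T r) (f : T r → U) (hθ : Ind θ)
    (hfm : Measurable fun x => (1 : ℤ) • f x) (h : Lp ℂ 2 (mm r)) (c : ℂ) (hh0 : h ≠ 0)
    (hWh : opW θ (fun x => (1 : ℤ) • f x) hfm h = c • h) : Kc θ f := by
  have hc : ‖c‖ = 1 := by
    have h1 : ‖opW θ (fun x => (1 : ℤ) • f x) hfm h‖ = ‖h‖ := by
      have e1 := opW_ae θ (fun x => (1 : ℤ) • f x) hfm h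
      have h2 : ‖opW θ (fun x => (1 : ℤ) • f x) hfm h‖ ^ 2 = ‖h‖ ^ 2 := by
        rw [nsq, nsq]
        have h3 := integral_add_right_eq_self (μ := mm r)
          (fun x => ‖(h : T r → ℂ) x‖ ^ 2) θ
        rw [← h3]
        refine integral_congr_ae ?_
        filter_upwards [e1] with x hx
        rw [hx, norm_mul, norm_e, one_mul]
      exact (sq_eq_sq₀ (norm_nonneg _) (norm_nonneg _)).mp h2
    rw [hWh, norm_smul] at h1
    have h2 : 0 < ‖h‖ := norm_pos_iff.mpr hh0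
    exact (mul_eq_right₀ h2.ne').mp h1
  obtain ⟨γ, hγ⟩ : ∃ γ : U, (fourier 1 γ : ℂ) = c := by
    refine ⟨((c.arg / (2 * Real.pi) : ℝ) : U), ?_⟩
    rw [fourier_coe_apply]
    have h1 := Complex.norm_mul_exp_arg_mul_I c
    rw [hc, Complex.ofReal_one, one_mul] at h1
    conv_rhs => rw [← h1]
    congr 1
    push_cast
    have : (2 * (Real.pi : ℂ)) ≠ 0 := by
      simp [Real.pi_ne_zero]
    field_simp
  have hfix : ∀ᵐ x ∂(mm r), (fourier 1 ((1 : ℤ) • f x + -γ) : ℂ) * (h : T r → ℂ) (x + θ) =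
      (h : T r → ℂ) x := by
    have h1 := Lp.coeFn_smul c h
    have h0 := opW_ae θ (fun x => (1 : ℤ) • f x) hfm h
    rw [hWh] at h0
    filter_upwards [h0, h1] with x h2 h3
    rw [h2, Pi.smul_apply, smul_eq_mul, ← hγ] at h3
    rw [add_comm, e_add, mul_assoc, h3, ← mul_assoc, ← e_add, neg_add_cancel]
    simp
  have hne : ¬ ∀ᵐ x ∂(mm r), (h : T r → ℂ) x = 0 := by
    intro h0
    apply hh0
    apply Lp.ext
    filter_upwards [h0, Lp.coeFn_zero ℂ 2 (mm r)] with x h1 h2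
    rw [h1, h2]
    rfl
  obtain ⟨u, hu, hue⟩ := transfer hE θ hθ (fun x => (1 : ℤ) • f x + -γ) (Lp.memLp h) hfix hne
  refine ⟨γ, fun x => - u x, hu.neg, ?_⟩
  filter_upwards [hue] with x hx
  rw [hx, one_smul]
  abel

end QHSP5

open Pool.Agent.Helper40.JZ.OPW Pool.Agent.Helper40.JZ.QHSP QHSP5 in
theorem st_QHS5 (hT : Pool.Agent.Helper40.JZ.ST_TOR) (hC : Pool.Agent.Helper40.JZ.ST_TCH) (hE : Pool.Agent.Helper40.JZ.ST_ERG) (hM : Pool.Agent.Helper40.JZ.ST_MSF)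
    (hV : Pool.Agent.Helper40.JZ.ST_EVC) : ST_QHS5 := by
  intro r θ f hθ hf hNK g ε hg hε
  by_contra hcon
  push Not at hcon
  choose! Q hQ1 hQ2 D hD hms using hcon
  have hq1 : ∀ n, 1 ≤ Q n := fun n => (hQ2 n).one_lt.le
  have hfm : Measurable fun x => (1 : ℤ) • f x := hf.measurable.const_smul (1 : ℤ)
  have hex := fun n => exP hT hM θ f 1 hfm (Q n) (hq1 n) (D n) (hD n)
  choose P hP1 hP2 hP3 hP4 hP5 using hex
  let e : HilbertBasis (Fin r → ℤ) ℂ (Lp ℂ 2 (mm r)) := UnitAddTorus.mFourierBasis (d := Fin r)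
  have he : ∀ X, ∀ᵐ x ∂(mm r), ((e X : Lp ℂ 2 (mm r)) : T r → ℂ) x = mFourier X x := by
    intro X
    have h1 : (e X : Lp ℂ 2 (mm r)) = UnitAddTorus.mFourierLp (d := Fin r) 2 X :=
      congrFun UnitAddTorus.coe_mFourierBasis X
    rw [h1]
    exact UnitAddTorus.coeFn_mFourierLp (d := Fin r) 2 X
  let gL : Lp ℂ 2 (mm r) := hg.toLp g
  have hmsP : ∀ n, ε ≤ RCLike.re (inner ℂ (P n gL) gL : ℂ) := by
    intro n
    have h1 : (inner ℂ (P n gL) gL : ℂ) = ((‖P n gL‖ ^ 2 : ℝ) : ℂ) := by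
      rw [← hP3 n gL, hP2 n, hP3 n, inner_self_eq_norm_sq_to_K]
      push_cast
      rfl
    rw [h1, hP5 n]
    have h2 : ms (Q n) (D n) 1 (gL : T r → ℂ) = ms (Q n) (D n) 1 g :=
      ms_congr (Q n) (D n) hg.coeFn_toLp 1
    rw [h2]
    exact (hms n).le
  obtain ⟨h, c, hh0, hWh⟩ := hV (Lp ℂ 2 (mm r)) (Fin r → ℤ) e (opW θ (fun x => (1 : ℤ) • f x) hfm)
    P gL ε hε hP1 (fun n F G => hP2 n F G) hP4
    (by
      intro B
      obtain ⟨K, hK⟩ := spread B
      filter_upwards [eventually_gt_atTop K] with n hn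
      have h1 : ∀ X ∈ B, ‖P n (e X)‖ ^ 2 = ms (Q n) (D n) 1 (fun x => mFourier X x) := by
        intro X _
        rw [hP5 n]
        exact ms_congr (Q n) (D n) (he X) 1
      rw [Finset.sum_congr rfl h1]
      exact hs_bound (Q n) (D n) hT hC (hq1 n) B
        (inj_mod B K (Q n) hK (lt_of_lt_of_le hn (hQ1 n))) (hD n).1) hmsP
  exact hNK (eigenK hE θ f hθ hfm h c hh0 hWh)

end Pool.Agent.Helper40.KZ
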